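import Pool.Agent.Helper30.DL.GoalsB

/-! PACKET ABTOT for MP_b4564f_an (helper30): decrement of `Re (α Z² W) + β |Z|² w_0`. -/

set_option autoImplicit false

open Complex (I)
open Finset
open Pool.Agent.Helper30.DL

namespace Pool.Agent.Helper54.DL

private lemma cplx (al mu lam Z W chi G a : ℂ) (h : mu * lam ^ 2 = 1) :
    al * Z ^ 2 * W - al * (lam * Z - G) ^ 2 * (mu * W - chi * a - G)
      = G * (al * mu * (2 * (lam * Z) - G) * W) + a * (al * chi * (lam * Z) ^ 2)
        - G * (a * (al * chi * (2 * (lam * Z) - G))) + G * (al * (lam * Z - G) ^ 2) := by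
  linear_combination (-(al * Z ^ 2 * W)) * h

private lemma nsq (U : ℂ) (G : ℝ) :
    Complex.normSq (U - (G : ℂ)) = Complex.normSq U - G * (2 * U - (G : ℂ)).re := by
  simp only [Complex.normSq_apply, Complex.sub_re, Complex.sub_im, Complex.ofReal_re,
    Complex.ofReal_im, Complex.mul_re, Complex.re_ofNat, Complex.im_ofNat]
  ring

private lemma mupow (t : ℝ) (j : ℕ) : ex t (2 * (-2 * (j : ℤ))) = mu t ^ j := by
  unfold mu ex
  rw [← Complex.exp_nat_mul]
  congr 1
  push_cast
  ring

private lemma ex0 (t : ℝ) (j : ℕ) : ex t (2 * (0 * (j : ℤ))) = 1 := by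
  unfold ex
  simp

private lemma bl2 (P : Pm) (k : ℕ) (t : ℝ) (j : ℕ) :
    Bl k t (B2r P t) j = be P t + (am P t * mu t ^ j).re := by
  unfold Bl B2r
  simp only [List.map_cons, List.map_nil, List.sum_cons, List.sum_nil, add_zero]
  unfold Bf
  simp only [pow_zero, one_mul]
  rw [ex0, mupow, mul_one, Complex.ofReal_re]

private lemma bl3 (P : Pm) (k : ℕ) (t : ℝ) (j : ℕ) :
    Bl k t (B3r P t) j = (I * am P t * mu t ^ j).re := by
  unfold Bl B3r
  simp only [List.map_cons, List.map_nil, List.sum_cons, List.sum_nil, add_zero]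
  unfold Bf
  simp only [pow_zero, one_mul]
  rw [mupow]

theorem abtot (hc : CstStmt) (hw : WndStmt) : AbtotStmt := by
  intro k hk t ht P g w X U T a z hX hU hT ha hz
  obtain ⟨ht0, -, -, -, hpp, -, -, -, -, hlc, -, hmu, -, -, -, -, hok, -⟩ := hc k hk t ht
  obtain ⟨hZ', hW', -, -, -, -, hW, hw0, hz0, -, -⟩ := hw k hk t ht (th t * g) w
  have hth : th t ≠ 0 := by unfold th; positivity
  have hns : Complex.normSq (lam t) = 1 := by
    have h1 : lam t * cj (lam t) = ((Complex.normSq (lam t) : ℝ) : ℂ) := by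
      unfold cj; exact Complex.mul_conj _
    rw [hlc] at h1
    exact_mod_cast h1.symm
  have hml : mu t * lam t ^ 2 = 1 := by
    rw [hmu, ← mul_pow, mul_comm, hlc, one_pow]
  have hUZ : U = lam t * Zf k t w := by
    rw [hU, hX, ← hok]; unfold Xf; ring
  have hnU : Complex.normSq (Zf k t w) = Complex.normSq U := by
    rw [hUZ, map_mul, hns, one_mul]
  have hw0' : nx k (pp t) (th t * g) w 0 = w 0 - pp t * w k - th t * g := rfl
  have e1 := cplx (al P t) (mu t) (lam t) (Zf k t w) (Wf k t w) ((th t : ℂ) * chh t)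
    ((th t * g : ℝ) : ℂ) ((a : ℝ) : ℂ) hml
  rw [← hUZ, ← hT] at e1
  have e2 := congrArg Complex.re e1
  rw [Complex.sub_re, Complex.add_re, Complex.sub_re, Complex.add_re, Complex.re_ofReal_mul,
    Complex.re_ofReal_mul, Complex.re_ofReal_mul, Complex.re_ofReal_mul, Complex.re_ofReal_mul]
    at e2
  have e3 : (al P t * ((th t : ℂ) * chh t) * U ^ 2).re = th t * (al P t * chh t * U ^ 2).re := by
    rw [← Complex.re_ofReal_mul]; congr 1; ring
  have e4 : (al P t * ((th t : ℂ) * chh t) * T).re = th t * (al P t * chh t * T).re := by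
    rw [← Complex.re_ofReal_mul]; congr 1; ring
  rw [e3, e4] at e2
  have hnZ' := nsq U (th t * g)
  rw [← hT] at hnZ'
  have e5 : (al P t * mu t * T * Wf k t w).re
      = (am P t * T * (w1 t * X + w2 t * cj X)).re + z * (am P t * muk t * T).re
        + ∑ j ∈ range k, (am P t * mu t ^ j * T).re * dt k t w j := by
    have h1 : al P t * mu t * T * Wf k t w
        = am P t * T * (w1 t * X + w2 t * cj X) + (z : ℂ) * (am P t * muk t * T)
          + ∑ j ∈ range k, (dt k t w j : ℂ) * (am P t * mu t ^ j * T) := by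
      rw [hW, ← hX, ← hz]
      have h2 : am P t = al P t * mu t := rfl
      rw [← h2, mul_add, mul_add, Finset.mul_sum]
      congr 1
      · rw [mul_add]; ring
      · exact Finset.sum_congr rfl fun j _ => by ring
    rw [h1, Complex.add_re, Complex.add_re, Complex.re_ofReal_mul, Complex.re_sum]
    congr 1
    exact Finset.sum_congr rfl fun j _ => by rw [Complex.re_ofReal_mul]; ring
  have hS2 : SS k t (Bl k t (B2r P t)) (Dh k t w)
      = ∑ j ∈ range k, (be P t + (am P t * mu t ^ j).re) * dt k t w j := by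
    unfold SS
    rw [Finset.mul_sum]
    refine Finset.sum_congr rfl fun j _ => ?_
    rw [bl2]; unfold Dh
    field_simp
  have hS3 : SS k t (Bl k t (B3r P t)) (Dh k t w)
      = ∑ j ∈ range k, (I * am P t * mu t ^ j).re * dt k t w j := by
    unfold SS
    rw [Finset.mul_sum]
    refine Finset.sum_congr rfl fun j _ => ?_
    rw [bl3]; unfold Dh
    field_simp
  have hSum : ∑ j ∈ range k, (am P t * mu t ^ j * T).re * dt k t w j
        + be P t * T.re * ∑ j ∈ range k, dt k t w j
      = T.re * SS k t (Bl k t (B2r P t)) (Dh k t w)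
        + T.im * SS k t (Bl k t (B3r P t)) (Dh k t w) := by
    rw [hS2, hS3, Finset.mul_sum, Finset.mul_sum, Finset.mul_sum, ← Finset.sum_add_distrib,
      ← Finset.sum_add_distrib]
    refine Finset.sum_congr rfl fun j _ => ?_
    have h3 : (I * am P t * mu t ^ j).re = -(am P t * mu t ^ j).im := by
      rw [mul_assoc, Complex.mul_re]; simp
    rw [h3, Complex.mul_re (am P t * mu t ^ j) T]
    ring
  rw [hZ', hW', ← hUZ, hw0', hnU, hnZ', ← ha]
  rw [e5] at e2
  rw [hw0, hz0, ← hX, ← hz, hpp]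
  have e6 : (al P t * (U - ((th t * g : ℝ) : ℂ)) ^ 2 * (mu t * Wf k t w
      - (th t : ℂ) * chh t * ((a : ℝ) : ℂ) - ((th t * g : ℝ) : ℂ))).re
      = (al P t * Zf k t w ^ 2 * Wf k t w).re - ((al P t * Zf k t w ^ 2 * Wf k t w).re
        - (al P t * (U - ((th t * g : ℝ) : ℂ)) ^ 2 * (mu t * Wf k t w
      - (th t : ℂ) * chh t * ((a : ℝ) : ℂ) - ((th t * g : ℝ) : ℂ))).re) := by ring
  rw [e6, e2]
  linear_combination (th t * g) * hSum
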