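import Pool.Agent.Helper30.DL.GoalsC

/-! PACKET MKB for MP_b4564f_an (helper30): enclosure of the Gram matrix. -/

set_option autoImplicit false

open Complex (I)
open Pool.Agent.Helper30.DL

namespace Pool.Agent.Helper54.DL

/-- closure properties of the affine arithmetic at fixed noise values -/
private structure Ar (x y z : ℝ) : Prop where
  add : ∀ {A B : AF} {v w : ℝ}, A.Enc x y z v → B.Enc x y z w → (A + B).Enc x y z (v + w)
  sub : ∀ {A B : AF} {v w : ℝ}, A.Enc x y z v → B.Enc x y z w → (A - B).Enc x y z (v - w)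
  mul : ∀ {A B : AF} {v w : ℝ}, A.Enc x y z v → B.Enc x y z w → (A * B).Enc x y z (v * w)
  neg : ∀ {A : AF} {v : ℝ}, A.Enc x y z v → (-A).Enc x y z (-v)
  smul : ∀ (n : ℕ) {A : AF} {v : ℝ}, A.Enc x y z v → (n • A).Enc x y z (n • v)
  inv : ∀ {A : AF} {v : ℝ}, A.Enc x y z v → A.pos = true → 0 < v ∧ A.inv.Enc x y z v⁻¹

private lemma mkAr (h : AfsStmt) {x y z : ℝ} (hx : |x| ≤ 1) (hy : |y| ≤ 1) (hz : |z| ≤ 1) :
    Ar x y z where
  add := fun hA hB => (h x y z hx hy hz _ _ _ _ hA hB).1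
  sub := fun hA hB => (h x y z hx hy hz _ _ _ _ hA hB).2.1
  mul := fun hA hB => (h x y z hx hy hz _ _ _ _ hA hB).2.2.1
  neg := fun hA => (h x y z hx hy hz _ _ _ _ hA hA).2.2.2.1
  smul := fun n _ _ hA => (h x y z hx hy hz _ _ _ _ hA hA).2.2.2.2.1 n
  inv := fun hA => (h x y z hx hy hz _ _ _ _ hA hA).2.2.2.2.2.2.2.1

private lemma cg {x y z : ℝ} {A : AF} {v w : ℝ} (h : A.Enc x y z v) (e : v = w) :
    A.Enc x y z w := e ▸ h

private lemma zerE (x y z : ℝ) : AF.zer.Enc x y z 0 := by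
  unfold AF.Enc AF.zer; simp

private lemma oneE (x y z : ℝ) : AF.one.Enc x y z 1 := by
  unfold AF.Enc AF.one; simp

private lemma hlfE (x y z : ℝ) : hlf.Enc x y z (1 / 2) := by
  unfold AF.Enc hlf AF.cst; norm_num

private lemma remulE {x y z : ℝ} (ar : Ar x y z) {a b : CA} {u v : ℂ} (ha : a.Enc x y z u)
    (hb : b.Enc x y z v) : (a.remul b).Enc x y z (u * v).re := by
  unfold CA.remul
  exact cg (ar.sub (ar.mul ha.1 hb.1) (ar.mul ha.2 hb.2)) (Complex.mul_re u v).symm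

private lemma cmul {x y z : ℝ} (ar : Ar x y z) {a b : CA} {u v : ℂ} (ha : a.Enc x y z u)
    (hb : b.Enc x y z v) : (a * b).Enc x y z (u * v) :=
  ⟨cg (ar.sub (ar.mul ha.1 hb.1) (ar.mul ha.2 hb.2)) (Complex.mul_re u v).symm,
    cg (ar.add (ar.mul ha.1 hb.2) (ar.mul ha.2 hb.1)) (Complex.mul_im u v).symm⟩

private lemma cneg {x y z : ℝ} (ar : Ar x y z) {a : CA} {u : ℂ} (ha : a.Enc x y z u) :
    (-a).Enc x y z (-u) := ⟨ar.neg ha.1, ar.neg ha.2⟩

private lemma ccj {x y z : ℝ} (ar : Ar x y z) {a : CA} {u : ℂ} (ha : a.Enc x y z u) :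
    a.cj.Enc x y z ((starRingEnd ℂ) u) :=
  ⟨cg ha.1 (Complex.conj_re u).symm, cg (ar.neg ha.2) (Complex.conj_im u).symm⟩

private lemma cscl {x y z : ℝ} (ar : Ar x y z) {s : AF} {a : CA} {r : ℝ} {u : ℂ}
    (hs : s.Enc x y z r) (ha : a.Enc x y z u) : (CA.scl s a).Enc x y z ((r : ℂ) * u) :=
  ⟨cg (ar.mul hs ha.1) (Complex.re_ofReal_mul r u).symm,
    cg (ar.mul hs ha.2) (Complex.im_ofReal_mul r u).symm⟩

private lemma cmulI {x y z : ℝ} (ar : Ar x y z) {a : CA} {u : ℂ} (ha : a.Enc x y z u) :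
    (CA.mulI a).Enc x y z (I * u) :=
  ⟨cg (ar.neg ha.2) (by simp [Complex.mul_re]), cg ha.1 (by simp [Complex.mul_im])⟩

private lemma cofR {x y z : ℝ} {a : AF} {r : ℝ} (ha : a.Enc x y z r) :
    (CA.ofR a).Enc x y z (r : ℂ) :=
  ⟨cg ha (Complex.ofReal_re r).symm, cg (zerE x y z) (Complex.ofReal_im r).symm⟩

/-- enclosure of terms -/
private def EncT (x y z : ℝ) (a : TmA) (c : Tm) : Prop :=
  a.c.Enc x y z c.c ∧ a.m = c.m ∧ a.f = c.f ∧ c.f ≤ 1 ∧ -2 ≤ c.m ∧ c.m ≤ 2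

private lemma tipE {x y z : ℝ} (ar : Ar x y z) {b : BsA} {t : ℝ}
    (hG : ∀ f : ℕ, f ≤ 2 → ∀ m : ℤ, -4 ≤ m → m ≤ 4 → (b.Gg f m).Enc x y z (Gg t f m))
    {a a' : TmA} {c c' : Tm} (h : EncT x y z a c) (h' : EncT x y z a' c') :
    (tipA b a a').Enc x y z (tip t c c') := by
  obtain ⟨h1, h2, h3, h4, h5, h6⟩ := h
  obtain ⟨g1, g2, g3, g4, g5, g6⟩ := h'
  unfold tipA tip
  rw [h2, h3, g2, g3]
  have e1 := hG (c.f + c'.f) (by omega) (c.m + c'.m) (by omega) (by omega)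
  have e2 := hG (c.f + c'.f) (by omega) (c.m - c'.m) (by omega) (by omega)
  refine cg (ar.mul (ar.add (remulE ar (cmul ar h1 g1) e1)
    (remulE ar (cmul ar h1 (ccj ar g1)) e2)) (hlfE x y z)) ?_
  ring

private lemma ip1E {x y z : ℝ} (ar : Ar x y z) {b : BsA} {t : ℝ}
    (hG : ∀ f : ℕ, f ≤ 2 → ∀ m : ℤ, -4 ≤ m → m ≤ 4 → (b.Gg f m).Enc x y z (Gg t f m))
    {a : TmA} {c : Tm} (h : EncT x y z a c) {L : List TmA} {B : List Tm}
    (hL : List.Forall₂ (EncT x y z) L B) :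
    (ip1A b a L).Enc x y z ((B.map fun y => tip t c y).sum) := by
  induction hL with
  | nil => rw [List.map_nil, List.sum_nil]; exact zerE x y z
  | cons h1 _ ih =>
      rw [List.map_cons, List.sum_cons]
      exact ar.add (tipE ar hG h h1) ih

private lemma ipE {x y z : ℝ} (ar : Ar x y z) {b : BsA} {t : ℝ}
    (hG : ∀ f : ℕ, f ≤ 2 → ∀ m : ℤ, -4 ≤ m → m ≤ 4 → (b.Gg f m).Enc x y z (Gg t f m))
    {L L' : List TmA} {B B' : List Tm}
    (hL : List.Forall₂ (EncT x y z) L B) (hL' : List.Forall₂ (EncT x y z) L' B') :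
    (ipA b L L').Enc x y z (ip t B B') := by
  unfold ip
  induction hL with
  | nil => rw [List.map_nil, List.sum_nil]; exact zerE x y z
  | cons h1 _ ih =>
      rw [List.map_cons, List.sum_cons]
      exact ar.add (ip1E ar hG h1 hL') ih

private lemma pos2 {A : AF} (h : A.pos = true) : (2 • A).pos = true := by
  have h1 : A.cn + A.dev < A.cp := by
    unfold AF.pos at h
    exact Nat.blt_eq.mp h
  show Nat.blt _ _ = true
  refine Nat.blt_eq.mpr ?_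
  have h2 : (2 • A).dev = 2 * A.dev := by
    show Nat.add (Nat.add (AF.ab (2 * A.xp) (2 * A.xn)) (AF.ab (2 * A.yp) (2 * A.yn)))
      (Nat.add (AF.ab (2 * A.zp) (2 * A.zn)) (2 * A.r)) = 2 * Nat.add (Nat.add (AF.ab A.xp A.xn)
        (AF.ab A.yp A.yn)) (Nat.add (AF.ab A.zp A.zn) A.r)
    unfold AF.ab
    simp only [Nat.add_eq, Nat.sub_eq]
    omega
  rw [h2]
  show 2 * A.cn + 2 * A.dev < 2 * A.cp
  omega

theorem mkb (ha : AfsStmt) (hm : MkaStmt) : MkbStmt := by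
  intro x y z hx hy hz b t Q P ht0 ht hb hP hok
  have ar := mkAr ha hx hy hz
  obtain ⟨-, -, -, -, -, -, -, -, hjs, -, -, -, hkap, -, hmu, -, hlk, -, -, -, -, -, -, hbe, -, -,
    -, -, -, hG, hkl, -, ham, -⟩ := hm x y z hx hy hz b t Q P ht0 ht hb hP hok
  have hph : b.f.Enc x y z (ph t) := hb.f
  have hjs1 := hjs 1 le_rfl (by norm_num)
  have hr1pos : AF.pos Q.r1 = true := by
    unfold okA at hok; simp only [Bool.and_eq_true] at hok; exact hok.1.2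
  have hqdpos : AF.pos (b.qd Q) = true := by
    unfold okA at hok; simp only [Bool.and_eq_true] at hok; exact hok.2
  have hr0 : 0 < P.r1 := (ar.inv (hP.r1 x y z) hr1pos).1
  have h2r : (2 : ℕ) • P.r1 = 2 * P.r1 := by rw [nsmul_eq_mul]; norm_num
  have hi2 : (BsA.i2r Q).Enc x y z (1 / (2 * P.r1)) := by
    refine cg (ar.inv (ar.smul 2 (hP.r1 x y z)) (pos2 hr1pos)).2 ?_
    rw [h2r, one_div]
  have f0 : List.Forall₂ (EncT x y z) (b.B0 Q) (B0 P) := by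
    unfold BsA.B0 B0
    exact .cons ⟨hP.nu0 x y z, rfl, rfl, by norm_num, by norm_num, by norm_num⟩ .nil
  have f1 : List.Forall₂ (EncT x y z) (b.B1 Q) (B1 P t) := by
    unfold BsA.B1 B1
    refine .cons ⟨?_, rfl, rfl, by norm_num, by norm_num, by norm_num⟩
      (.cons ⟨?_, rfl, rfl, by norm_num, by norm_num, by norm_num⟩
      (.cons ⟨?_, rfl, rfl, by norm_num, by norm_num, by norm_num⟩
      (.cons ⟨hP.nu1 x y z, rfl, rfl, by norm_num, by norm_num, by norm_num⟩ .nil)))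
    · refine cofR (cg (ar.neg (ar.smul 2 (ar.mul (hP.c1h x y z) (ar.mul hjs1 hkl.1)))) ?_)
      rw [nsmul_eq_mul]; norm_num
    · refine cscl ar (cg (ar.smul 2 (ar.mul (hP.c1h x y z) hjs1)) ?_) (cmul ar hkap hmu)
      rw [nsmul_eq_mul]; norm_num
    · refine cscl ar (cg (ar.smul 2 (ar.mul (hP.r1 x y z) hph)) ?_) (cmul ar hkap hmu)
      rw [nsmul_eq_mul]; norm_num
  have f2 : List.Forall₂ (EncT x y z) (b.B2 Q) (B2 P t) := by
    unfold BsA.B2 B2
    exact .cons ⟨cofR hbe, rfl, rfl, by norm_num, by norm_num, by norm_num⟩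
      (.cons ⟨ham, rfl, rfl, by norm_num, by norm_num, by norm_num⟩
      (.cons ⟨hP.nu2 x y z, rfl, rfl, by norm_num, by norm_num, by norm_num⟩ .nil))
  have f3 : List.Forall₂ (EncT x y z) (b.B3 Q) (B3 P t) := by
    unfold BsA.B3 B3
    exact .cons ⟨cmulI ar ham, rfl, rfl, by norm_num, by norm_num, by norm_num⟩
      (.cons ⟨hP.nu3 x y z, rfl, rfl, by norm_num, by norm_num, by norm_num⟩ .nil)
  have f4 : List.Forall₂ (EncT x y z) (b.B4 Q) (B4 P) := by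
    unfold BsA.B4 B4
    exact .cons ⟨⟨cg (oneE x y z) Complex.one_re.symm, cg (zerE x y z) Complex.one_im.symm⟩,
      rfl, rfl, by norm_num, by norm_num, by norm_num⟩
      (.cons ⟨cneg ar (hP.xi x y z), rfl, rfl, by norm_num, by norm_num, by norm_num⟩ .nil)
  have hgg : (b.gg Q).Enc x y z (gg P t) := ipE ar hG f4 f4
  have hqd : (b.qd Q).Enc x y z (1 - P.c1h / P.r1 * gg P t) := by
    refine cg (ar.sub (oneE x y z) (ar.mul (ar.mul (hP.c1h x y z) (ar.smul 2 hi2)) hgg)) ?_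
    rw [nsmul_eq_mul]
    push_cast
    field_simp
  have hq := ar.inv hqd hqdpos
  have hc1 : (b.c1p Q).Enc x y z (c1p P t) := ar.mul (hP.c1h x y z) hq.2
  have t0 : (b.tv0 Q).Enc x y z (tv0 P t) :=
    ar.sub (ar.sub (oneE x y z) (remulE ar (hP.xi x y z) hlk)) (ar.mul hi2 (ipE ar hG f0 f4))
  have t1 : (b.tv1 Q).Enc x y z (tv1 P t) := ar.neg (ar.mul hi2 (ipE ar hG f1 f4))
  have t2 : (b.tv2 Q).Enc x y z (tv2 P t) := ar.neg (ar.mul hi2 (ipE ar hG f2 f4))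
  have t3 : (b.tv3 Q).Enc x y z (tv3 P t) := ar.neg (ar.mul hi2 (ipE ar hG f3 f4))
  have hGm : ∀ {L L' : List TmA} {B B' : List Tm} {u v : AF} {u' v' : ℝ},
      List.Forall₂ (EncT x y z) L B → List.Forall₂ (EncT x y z) L' B' →
      u.Enc x y z u' → v.Enc x y z v' →
      (b.Gm Q L L' u v).Enc x y z (Gm P t B B' u' v') := by
    intro L L' B B' u v u' v' hL hL' hu hv
    unfold BsA.Gm Gm
    refine cg (ar.sub (ar.neg (ar.mul (ar.mul hi2 (hlfE x y z)) (ipE ar hG hL hL')))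
      (ar.mul hc1 (ar.mul hu hv))) ?_
    have : 1 / (2 * P.r1) * (1 / 2) = 1 / (4 * P.r1) := by field_simp; norm_num
    rw [this]
  refine ⟨?_, hr0, ?_⟩
  · exact ⟨hGm f0 f0 t0 t0, hGm f0 f1 t0 t1, hGm f0 f2 t0 t2, hGm f0 f3 t0 t3, hGm f1 f1 t1 t1,
      hGm f1 f2 t1 t2, hGm f1 f3 t1 t3, hGm f2 f2 t2 t2, hGm f2 f3 t2 t3, hGm f3 f3 t3 t3⟩
  · have h1 := hq.1
    have h2 : P.c1h / P.r1 * gg P t * P.r1 = P.c1h * gg P t := by field_simp
    have h3 : P.c1h / P.r1 * gg P t < 1 := by linarith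
    have h4 := mul_lt_mul_of_pos_right h3 hr0
    rw [h2, one_mul] at h4
    exact h4

end Pool.Agent.Helper54.DL
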